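import Mathlib

/-!
# Nested grid-equidistributed sequences in the unit square

`Good K x` : for every `k = 1, …, K` the first `k ^ 2` points of the sequence `x` lie in the unit
square, one in each cell of the `k × k` grid.

We prove that a `17`-good sequence exists and that no `40000`-good sequence exists; so the largest
`K` for which a `K`-good sequence exists is finite and lies between `17` and `39999`, and there is
no infinite good sequence.

Idea of the upper bound.  Near the point `(1/15, 1/225)` the corners of the cells of the grids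
`m, m + 1, …, m + 224` come close to every point.  Hence (filling) every square of side a bit more
than `1 / m` contains a point of `X_{m+225}`, and (separation) two points of `X_m` have distance
almost `1 / m` in the maximum norm.  Take a point `P`; looking just to the right of `P` at scale
`1 / k` we find points `A`, `B` of `X` on a vertical line at distance about `1 / k` from `P`, with
vertical distance about `1 / k` between `A` and `B`, on both sides of the horizontal line through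
`P`.  At scale `0.8 / k` we find a point `C` to the right of `P` at distance about `0.8 / k` and
almost at the height of `P`; it is too close to `A` or to `B`.
-/

namespace Pool.Agent.Results.MP_924435_co.FiniteBound

/-- The point `p` lies in the cell `[i/k, (i+1)/k) × [j/k, (j+1)/k)` of the `k × k` grid
(indices `i, j` start at `0`). -/
def InCell (k i j : ℕ) (p : ℝ × ℝ) : Prop :=
  (i : ℝ) / k ≤ p.1 ∧ p.1 < ((i : ℝ) + 1) / k ∧ (j : ℝ) / k ≤ p.2 ∧ p.2 < ((j : ℝ) + 1) / k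

/-- The point `p` lies in the half-open unit square `[0,1)²`. -/
def InSquare (p : ℝ × ℝ) : Prop := 0 ≤ p.1 ∧ p.1 < 1 ∧ 0 ≤ p.2 ∧ p.2 < 1

/-- The finite sequence `x 0, x 1, …, x (K ^ 2 - 1)` is `K`-good: its points lie in `[0,1)²`, and
for every `k = 1, …, K` each cell of the `k × k` grid contains exactly one of the first `k ^ 2`
points. -/
def Good (K : ℕ) (x : ℕ → ℝ × ℝ) : Prop :=
  (∀ n < K ^ 2, InSquare (x n)) ∧
  ∀ k, 1 ≤ k → k ≤ K → ∀ i < k, ∀ j < k, ∃! n, n < k ^ 2 ∧ InCell k i j (x n)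

/-! ### The lower bound: products of a one-dimensional sequence of length `17` -/

/-- The numerators (over `52`) of a one-dimensional sequence of length `17`. -/
def c : ℕ → ℕ := fun n =>
  [0, 28, 44, 14, 37, 22, 48, 7, 32, 18, 40, 11, 25, 49, 4, 34, 19].getD n 0

/-- One-dimensional check. -/
lemma c_check : ∀ k < 18, ∀ i < k, ∃ p < k, (i * 52 ≤ k * c p ∧ k * c p < (i + 1) * 52) ∧
    ∀ q < k, (i * 52 ≤ k * c q ∧ k * c q < (i + 1) * 52) → q = p := by
  decide +kernel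

lemma c_lt : ∀ n, c n < 52 := by
  intro n
  by_cases h : n < 17
  · revert h
    have : ∀ n < 17, c n < 52 := by decide
    exact this n
  · have : c n = 0 := by
      unfold c
      rw [List.getD_eq_default]
      simp only [List.length_cons, List.length_nil]
      omega
    omega

/-- The one-dimensional sequence. -/
noncomputable def a (n : ℕ) : ℝ := (c n : ℝ) / 52

lemma a_iff {k i p : ℕ} (hk : 1 ≤ k) :
    ((i : ℝ) / k ≤ a p ∧ a p < ((i : ℝ) + 1) / k) ↔ (i * 52 ≤ k * c p ∧ k * c p < (i + 1) * 52) := by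
  have hk' : (0 : ℝ) < k := by exact_mod_cast hk
  unfold a
  rw [div_le_div_iff₀ hk' (by norm_num), div_lt_div_iff₀ (by norm_num) hk']
  constructor
  · rintro ⟨h1, h2⟩
    constructor
    · have : ((i * 52 : ℕ) : ℝ) ≤ ((k * c p : ℕ) : ℝ) := by push_cast; linarith
      exact_mod_cast this
    · have : ((k * c p : ℕ) : ℝ) < (((i + 1) * 52 : ℕ) : ℝ) := by push_cast; linarith
      exact_mod_cast this
  · rintro ⟨h1, h2⟩
    have h1' : ((i * 52 : ℕ) : ℝ) ≤ ((k * c p : ℕ) : ℝ) := by exact_mod_cast h1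
    have h2' : ((k * c p : ℕ) : ℝ) < (((i + 1) * 52 : ℕ) : ℝ) := by exact_mod_cast h2
    push_cast at h1' h2'
    constructor <;> linarith

lemma unpair_lt_iff (n k : ℕ) : n < k ^ 2 ↔ (Nat.unpair n).1 < k ∧ (Nat.unpair n).2 < k := by
  have h1 := Nat.pair_lt_max_add_one_sq (Nat.unpair n).1 (Nat.unpair n).2
  have h2 := Nat.max_sq_add_min_le_pair (Nat.unpair n).1 (Nat.unpair n).2
  rw [Nat.pair_unpair] at h1 h2
  set M := max (Nat.unpair n).1 (Nat.unpair n).2 with hM
  rw [← max_lt_iff, ← hM]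
  constructor
  · intro h
    by_contra hc
    push Not at hc
    have : k ^ 2 ≤ M ^ 2 := Nat.pow_le_pow_left hc 2
    omega
  · intro h
    have : (M + 1) ^ 2 ≤ k ^ 2 := Nat.pow_le_pow_left h 2
    omega

theorem lower : Good 17 (fun n => (a (Nat.unpair n).1, a (Nat.unpair n).2)) := by
  have ha : ∀ n, 0 ≤ a n ∧ a n < 1 := by
    intro n
    have h := c_lt n
    have h' : (c n : ℝ) < 52 := by exact_mod_cast h
    unfold a
    constructor
    · positivity
    · rw [div_lt_one (by norm_num)]; exact h'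
  refine ⟨fun n _ => ⟨(ha _).1, (ha _).2, (ha _).1, (ha _).2⟩, ?_⟩
  intro k hk1 hk2 i hi j hj
  obtain ⟨p, hp, hp1, hp2⟩ := c_check k (by omega) i hi
  obtain ⟨q, hq, hq1, hq2⟩ := c_check k (by omega) j hj
  refine ⟨Nat.pair p q, ⟨?_, ?_⟩, ?_⟩
  · rw [unpair_lt_iff]
    simp only [Nat.unpair_pair]
    exact ⟨hp, hq⟩
  · have h1 := (a_iff (i := i) (p := p) hk1).2 hp1
    have h2 := (a_iff (i := j) (p := q) hk1).2 hq1
    simp only [InCell, Nat.unpair_pair]
    exact ⟨h1.1, h1.2, h2.1, h2.2⟩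
  · rintro n ⟨hn, hc1, hc2, hc3, hc4⟩
    rw [unpair_lt_iff] at hn
    have h1 := hp2 _ hn.1 ((a_iff hk1).1 ⟨hc1, hc2⟩)
    have h2 := hq2 _ hn.2 ((a_iff hk1).1 ⟨hc3, hc4⟩)
    rw [← h1, ← h2, Nat.pair_unpair]

/-! ### The upper bound -/

/-- Phases: near `(1/15, 1/225)` every point is close to the lower left corner of its cell in one
of the grids `m, …, m + 224`. -/
lemma phase (m : ℕ) (bx b_y : ℝ) (hx1 : 1 / 15 ≤ bx) (hx2 : bx ≤ 1 / 15 + 1 / 7500)
    (hy1 : 1 / 225 ≤ b_y) (hy2 : b_y ≤ 1 / 225 + 1 / 7500) :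
    ∃ s : ℕ, s < 225 ∧ ∃ u v : ℤ, (u : ℝ) ≤ (m + s : ℕ) * bx ∧ ((m + s : ℕ) : ℝ) * bx ≤ u + 49 / 500 ∧
      (v : ℝ) ≤ (m + s : ℕ) * b_y ∧ ((m + s : ℕ) : ℝ) * b_y ≤ v + 49 / 500 := by
  set φ : ℝ := m * bx with hφ
  set n1 : ℤ := ⌊15 * φ⌋ with hn1
  set i : ℤ := (-n1) % 15 with hi
  have hi0 : 0 ≤ i := Int.emod_nonneg _ (by norm_num)
  have hi1 : i < 15 := Int.emod_lt_of_pos _ (by norm_num)
  obtain ⟨d1, hd1⟩ : ∃ d1 : ℤ, n1 + i = 15 * d1 := by
    have : (-n1) = 15 * ((-n1) / 15) + i := by rw [hi]; exact (Int.mul_ediv_add_emod _ _).symm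
    exact ⟨-((-n1) / 15), by linarith⟩
  set ψ : ℝ := m * b_y + i / 225 with hψ
  set n2 : ℤ := ⌊15 * ψ⌋ with hn2
  set j : ℤ := (-n2) % 15 with hj
  have hj0 : 0 ≤ j := Int.emod_nonneg _ (by norm_num)
  have hj1 : j < 15 := Int.emod_lt_of_pos _ (by norm_num)
  obtain ⟨d2, hd2⟩ : ∃ d2 : ℤ, n2 + j = 15 * d2 := by
    have : (-n2) = 15 * ((-n2) / 15) + j := by rw [hj]; exact (Int.mul_ediv_add_emod _ _).symm
    exact ⟨-((-n2) / 15), by linarith⟩
  have hs0 : 0 ≤ i + 15 * j := by positivity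
  have hs1 : i + 15 * j < 225 := by omega
  refine ⟨(i + 15 * j).toNat, by omega, d1 + j, d2, ?_⟩
  have hcast : (((i + 15 * j).toNat : ℕ) : ℝ) = (i : ℝ) + 15 * j := by
    have : (((i + 15 * j).toNat : ℕ) : ℤ) = i + 15 * j := Int.toNat_of_nonneg hs0
    have h2 : ((((i + 15 * j).toNat : ℕ) : ℤ) : ℝ) = ((i + 15 * j : ℤ) : ℝ) := by rw [this]
    push_cast at h2
    exact h2
  push_cast
  rw [hcast]
  have e1 : (n1 : ℝ) ≤ 15 * φ := Int.floor_le _
  have e2 : 15 * φ < n1 + 1 := Int.lt_floor_add_one _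
  have e3 : (n2 : ℝ) ≤ 15 * ψ := Int.floor_le _
  have e4 : 15 * ψ < n2 + 1 := Int.lt_floor_add_one _
  have e5 : (n1 : ℝ) + i = 15 * d1 := by exact_mod_cast hd1
  have e6 : (n2 : ℝ) + j = 15 * d2 := by exact_mod_cast hd2
  have hS0 : (0 : ℝ) ≤ (i : ℝ) + 15 * j := by exact_mod_cast hs0
  have hS1 : (i : ℝ) + 15 * j ≤ 225 := by exact_mod_cast hs1.le
  have p1 : 0 ≤ ((i : ℝ) + 15 * j) * (bx - 1 / 15) := mul_nonneg hS0 (by linarith)
  have p2 : ((i : ℝ) + 15 * j) * (bx - 1 / 15) ≤ 225 * (1 / 7500) :=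
    mul_le_mul hS1 (by linarith) (by linarith) (by norm_num)
  have p3 : 0 ≤ ((i : ℝ) + 15 * j) * (b_y - 1 / 225) := mul_nonneg hS0 (by linarith)
  have p4 : ((i : ℝ) + 15 * j) * (b_y - 1 / 225) ≤ 225 * (1 / 7500) :=
    mul_le_mul hS1 (by linarith) (by linarith) (by norm_num)
  have r1 : ((m : ℝ) + ((i : ℝ) + 15 * j)) * bx =
      φ + i / 15 + j + ((i : ℝ) + 15 * j) * (bx - 1 / 15) := by rw [hφ]; ring
  have r2 : ((m : ℝ) + ((i : ℝ) + 15 * j)) * b_y =
      ψ + j / 15 + ((i : ℝ) + 15 * j) * (b_y - 1 / 225) := by rw [hψ]; ring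
  rw [r1, r2]
  refine ⟨?_, ?_, ?_, ?_⟩ <;> linarith

variable {K : ℕ} {x : ℕ → ℝ × ℝ}

/-- Filling. -/
lemma fill (h : Good K x) (m : ℕ) (hm : 1 ≤ m) (hmK : m + 225 ≤ K) (bx b_y : ℝ)
    (hx1 : 1 / 15 ≤ bx) (hx2 : bx ≤ 1 / 15 + 1 / 7500)
    (hy1 : 1 / 225 ≤ b_y) (hy2 : b_y ≤ 1 / 225 + 1 / 7500) :
    ∃ n, n < (m + 225) ^ 2 ∧ bx - (49 / 500) / m ≤ (x n).1 ∧ (x n).1 < bx + 1 / m ∧
      b_y - (49 / 500) / m ≤ (x n).2 ∧ (x n).2 < b_y + 1 / m := by
  obtain ⟨s, hs, u, v, hu1, hu2, hv1, hv2⟩ := phase m bx b_y hx1 hx2 hy1 hy2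
  have hm' : (1 : ℝ) ≤ m := by exact_mod_cast hm
  set M : ℕ := m + s with hM
  have hM1 : (m : ℝ) ≤ M := by rw [hM]; push_cast; linarith [Nat.cast_nonneg (α := ℝ) s]
  have hM0 : (0 : ℝ) < M := by linarith
  -- the cell
  set i : ℕ := ⌊(M : ℝ) * bx⌋₊ with hi
  set j : ℕ := ⌊(M : ℝ) * b_y⌋₊ with hj
  have hbx : 0 ≤ (M : ℝ) * bx := by positivity
  have hby : 0 ≤ (M : ℝ) * b_y := by positivity
  have i1 : (i : ℝ) ≤ M * bx := Nat.floor_le hbx
  have i2 : (M : ℝ) * bx < i + 1 := Nat.lt_floor_add_one _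
  have j1 : (j : ℝ) ≤ M * b_y := Nat.floor_le hby
  have j2 : (M : ℝ) * b_y < j + 1 := Nat.lt_floor_add_one _
  have ui : u ≤ (i : ℤ) := by
    have : (u : ℝ) < ((i : ℤ) : ℝ) + 1 := by push_cast; linarith
    have : u < (i : ℤ) + 1 := by exact_mod_cast this
    omega
  have vj : v ≤ (j : ℤ) := by
    have : (v : ℝ) < ((j : ℤ) : ℝ) + 1 := by push_cast; linarith
    have : v < (j : ℤ) + 1 := by exact_mod_cast this
    omega
  have ui' : (u : ℝ) ≤ i := by exact_mod_cast ui
  have vj' : (v : ℝ) ≤ j := by exact_mod_cast vj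
  have hiM : i < M := by
    have : (i : ℝ) < M := by nlinarith
    exact_mod_cast this
  have hjM : j < M := by
    have : (j : ℝ) < M := by nlinarith
    exact_mod_cast this
  have hM1' : 1 ≤ M := by omega
  obtain ⟨n, ⟨hn, c1, c2, c3, c4⟩, -⟩ := h.2 M hM1' (by omega) i hiM j hjM
  refine ⟨n, lt_of_lt_of_le hn (Nat.pow_le_pow_left (by omega) 2), ?_, ?_, ?_, ?_⟩
  · refine le_trans ?_ c1
    have : bx - (49 / 500) / M ≤ (i : ℝ) / M := by
      rw [le_div_iff₀ hM0, sub_mul, div_mul_cancel₀ _ hM0.ne']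
      linarith
    have h3 : (49 / 500 : ℝ) / M ≤ (49 / 500) / m :=
      div_le_div_of_nonneg_left (by norm_num) (by linarith) hM1
    linarith
  · refine lt_of_lt_of_le c2 ?_
    have : ((i : ℝ) + 1) / M ≤ bx + 1 / M := by
      rw [div_le_iff₀ hM0, add_mul, div_mul_cancel₀ _ hM0.ne']
      linarith
    have h3 : (1 : ℝ) / M ≤ 1 / m := div_le_div_of_nonneg_left (by norm_num) (by linarith) hM1
    linarith
  · refine le_trans ?_ c3
    have : b_y - (49 / 500) / M ≤ (j : ℝ) / M := by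
      rw [le_div_iff₀ hM0, sub_mul, div_mul_cancel₀ _ hM0.ne']
      linarith
    have h3 : (49 / 500 : ℝ) / M ≤ (49 / 500) / m :=
      div_le_div_of_nonneg_left (by norm_num) (by linarith) hM1
    linarith
  · refine lt_of_lt_of_le c4 ?_
    have : ((j : ℝ) + 1) / M ≤ b_y + 1 / M := by
      rw [div_le_iff₀ hM0, add_mul, div_mul_cancel₀ _ hM0.ne']
      linarith
    have h3 : (1 : ℝ) / M ≤ 1 / m := div_le_div_of_nonneg_left (by norm_num) (by linarith) hM1
    linarith

/-- Separation. -/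
lemma sep (h : Good K x) (m : ℕ) (hm : 1 ≤ m) (hmK : m + 225 ≤ K) (n1 n2 : ℕ)
    (h1 : n1 < m ^ 2) (h2 : n2 < m ^ 2) (hne : n1 ≠ n2) (bx b_y : ℝ)
    (hx1 : 1 / 15 ≤ bx) (hx2 : bx ≤ 1 / 15 + 1 / 7500)
    (hy1 : 1 / 225 ≤ b_y) (hy2 : b_y ≤ 1 / 225 + 1 / 7500)
    (a1 : bx ≤ (x n1).1) (a2 : bx ≤ (x n2).1) (a3 : b_y ≤ (x n1).2) (a4 : b_y ≤ (x n2).2)
    (b1 : (x n1).1 < bx + (451 / 500) / (m + 225 : ℕ)) (b2 : (x n2).1 < bx + (451 / 500) / (m + 225 : ℕ))
    (b3 : (x n1).2 < b_y + (451 / 500) / (m + 225 : ℕ)) (b4 : (x n2).2 < b_y + (451 / 500) / (m + 225 : ℕ)) :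
    False := by
  obtain ⟨s, hs, u, v, hu1, hu2, hv1, hv2⟩ := phase m bx b_y hx1 hx2 hy1 hy2
  have hm' : (1 : ℝ) ≤ m := by exact_mod_cast hm
  set M : ℕ := m + s with hM
  have hM1 : (m : ℝ) ≤ M := by rw [hM]; push_cast; linarith [Nat.cast_nonneg (α := ℝ) s]
  have hM0 : (0 : ℝ) < M := by linarith
  have hM2 : (M : ℝ) ≤ ((m + 225 : ℕ) : ℝ) := by exact_mod_cast (by omega : M ≤ m + 225)
  have hbx : 0 ≤ (M : ℝ) * bx := by positivity
  have hby : 0 ≤ (M : ℝ) * b_y := by positivity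
  have hu0 : 0 ≤ u := by
    by_contra hc
    push Not at hc
    have : u ≤ -1 := by omega
    have : (u : ℝ) ≤ -1 := by exact_mod_cast this
    linarith
  have hv0 : 0 ≤ v := by
    by_contra hc
    push Not at hc
    have : v ≤ -1 := by omega
    have : (v : ℝ) ≤ -1 := by exact_mod_cast this
    linarith
  obtain ⟨i, rfl⟩ := Int.eq_ofNat_of_zero_le hu0
  obtain ⟨j, rfl⟩ := Int.eq_ofNat_of_zero_le hv0
  have e1 : (((i : ℤ)) : ℝ) = (i : ℝ) := by push_cast; rfl
  have e2 : (((j : ℤ)) : ℝ) = (j : ℝ) := by push_cast; rfl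
  rw [e1] at hu1 hu2
  rw [e2] at hv1 hv2
  have hiM : i < M := by
    have : (i : ℝ) < M := by nlinarith
    exact_mod_cast this
  have hjM : j < M := by
    have : (j : ℝ) < M := by nlinarith
    exact_mod_cast this
  have hM1' : 1 ≤ M := by omega
  have hw : (451 / 500 : ℝ) / (m + 225 : ℕ) ≤ (451 / 500) / M :=
    div_le_div_of_nonneg_left (by norm_num) hM0 hM2
  have q1 : (i : ℝ) / M ≤ bx := by rw [div_le_iff₀ hM0]; linarith
  have q2 : bx + (451 / 500) / M ≤ ((i : ℝ) + 1) / M := by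
    rw [le_div_iff₀ hM0, add_mul, div_mul_cancel₀ _ hM0.ne']
    linarith
  have q3 : (j : ℝ) / M ≤ b_y := by rw [div_le_iff₀ hM0]; linarith
  have q4 : b_y + (451 / 500) / M ≤ ((j : ℝ) + 1) / M := by
    rw [le_div_iff₀ hM0, add_mul, div_mul_cancel₀ _ hM0.ne']
    linarith
  have hmM : m ^ 2 ≤ M ^ 2 := Nat.pow_le_pow_left (by omega) 2
  have huniq := (h.2 M hM1' (by omega) i hiM j hjM).unique
    (y₁ := n1) (y₂ := n2) ⟨by omega, by linarith, by linarith, by linarith, by linarith⟩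
    ⟨by omega, by linarith, by linarith, by linarith, by linarith⟩
  exact hne huniq

/-- Separation in the form used below: if two distinct points of `X_m` in the window are close in
the second coordinate and `U` is to the left of `V`, then they are far in the first coordinate. -/
lemma sepx (h : Good K x) (m : ℕ) (hm : 1 ≤ m) (hmK : m + 225 ≤ K) (n1 n2 : ℕ)
    (h1 : n1 < m ^ 2) (h2 : n2 < m ^ 2) (hne : n1 ≠ n2)
    (X1 : 1 / 15 ≤ (x n1).1) (X2 : (x n1).1 ≤ 1 / 15 + 1 / 7500)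
    (X3 : 1 / 15 ≤ (x n2).1) (X4 : (x n2).1 ≤ 1 / 15 + 1 / 7500)
    (Y1 : 1 / 225 ≤ (x n1).2) (Y2 : (x n1).2 ≤ 1 / 225 + 1 / 7500)
    (Y3 : 1 / 225 ≤ (x n2).2) (Y4 : (x n2).2 ≤ 1 / 225 + 1 / 7500)
    (d1 : (x n1).1 - (x n2).1 < (451 / 500) / (m + 225 : ℕ))
    (d2 : (x n2).1 - (x n1).1 < (451 / 500) / (m + 225 : ℕ))
    (d3 : (x n1).2 - (x n2).2 < (451 / 500) / (m + 225 : ℕ))
    (d4 : (x n2).2 - (x n1).2 < (451 / 500) / (m + 225 : ℕ)) : False := by
  have hpos : (0 : ℝ) < (451 / 500) / (m + 225 : ℕ) := by positivity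
  rcases le_total (x n1).1 (x n2).1 with hx | hx <;>
    rcases le_total (x n1).2 (x n2).2 with hy | hy
  · exact sep h m hm hmK n1 n2 h1 h2 hne (x n1).1 (x n1).2 X1 X2 Y1 Y2 le_rfl hx le_rfl hy
      (by linarith) (by linarith) (by linarith) (by linarith)
  · exact sep h m hm hmK n1 n2 h1 h2 hne (x n1).1 (x n2).2 X1 X2 Y3 Y4 le_rfl hx hy le_rfl
      (by linarith) (by linarith) (by linarith) (by linarith)
  · exact sep h m hm hmK n1 n2 h1 h2 hne (x n2).1 (x n1).2 X3 X4 Y1 Y2 hx le_rfl le_rfl hy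
      (by linarith) (by linarith) (by linarith) (by linarith)
  · exact sep h m hm hmK n1 n2 h1 h2 hne (x n2).1 (x n2).2 X3 X4 Y3 Y4 hx le_rfl hy le_rfl
      (by linarith) (by linarith) (by linarith) (by linarith)

/-- Filling at scale `1 / 31200`. -/
lemma fillk (h : Good 40000 x) (bx b_y : ℝ)
    (hx1 : 1 / 15 ≤ bx) (hx2 : bx ≤ 1 / 15 + 1 / 7500)
    (hy1 : 1 / 225 ≤ b_y) (hy2 : b_y ≤ 1 / 225 + 1 / 7500) :
    ∃ n, n < 31425 ^ 2 ∧ bx - (49 / 500) / 31200 ≤ (x n).1 ∧ (x n).1 < bx + 1 / 31200 ∧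
      b_y - (49 / 500) / 31200 ≤ (x n).2 ∧ (x n).2 < b_y + 1 / 31200 := by
  have := fill h 31200 (by norm_num) (by norm_num) bx b_y hx1 hx2 hy1 hy2
  push_cast at this
  exact this

/-- Filling at scale `1 / 39000`. -/
lemma fillk' (h : Good 40000 x) (bx b_y : ℝ)
    (hx1 : 1 / 15 ≤ bx) (hx2 : bx ≤ 1 / 15 + 1 / 7500)
    (hy1 : 1 / 225 ≤ b_y) (hy2 : b_y ≤ 1 / 225 + 1 / 7500) :
    ∃ n, n < 39225 ^ 2 ∧ bx - (49 / 500) / 39000 ≤ (x n).1 ∧ (x n).1 < bx + 1 / 39000 ∧
      b_y - (49 / 500) / 39000 ≤ (x n).2 ∧ (x n).2 < b_y + 1 / 39000 := by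
  have := fill h 39000 (by norm_num) (by norm_num) bx b_y hx1 hx2 hy1 hy2
  push_cast at this
  exact this

/-- Separation at scale `1 / 31425`. -/
lemma sepk (h : Good 40000 x) (n1 n2 : ℕ)
    (h1 : n1 < 31425 ^ 2) (h2 : n2 < 31425 ^ 2) (hne : n1 ≠ n2)
    (X1 : 1 / 15 ≤ (x n1).1) (X2 : (x n1).1 ≤ 1 / 15 + 1 / 7500)
    (X3 : 1 / 15 ≤ (x n2).1) (X4 : (x n2).1 ≤ 1 / 15 + 1 / 7500)
    (Y1 : 1 / 225 ≤ (x n1).2) (Y2 : (x n1).2 ≤ 1 / 225 + 1 / 7500)
    (Y3 : 1 / 225 ≤ (x n2).2) (Y4 : (x n2).2 ≤ 1 / 225 + 1 / 7500)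
    (d1 : (x n1).1 - (x n2).1 < (451 / 500) / 31650)
    (d2 : (x n2).1 - (x n1).1 < (451 / 500) / 31650)
    (d3 : (x n1).2 - (x n2).2 < (451 / 500) / 31650)
    (d4 : (x n2).2 - (x n1).2 < (451 / 500) / 31650) : False := by
  refine sepx h 31425 (by norm_num) (by norm_num) n1 n2 h1 h2 hne X1 X2 X3 X4 Y1 Y2 Y3 Y4
    ?_ ?_ ?_ ?_ <;> push_cast <;> norm_num <;> linarith

/-- Separation at scale `1 / 39225`. -/
lemma sepk' (h : Good 40000 x) (n1 n2 : ℕ)
    (h1 : n1 < 39225 ^ 2) (h2 : n2 < 39225 ^ 2) (hne : n1 ≠ n2)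
    (X1 : 1 / 15 ≤ (x n1).1) (X2 : (x n1).1 ≤ 1 / 15 + 1 / 7500)
    (X3 : 1 / 15 ≤ (x n2).1) (X4 : (x n2).1 ≤ 1 / 15 + 1 / 7500)
    (Y1 : 1 / 225 ≤ (x n1).2) (Y2 : (x n1).2 ≤ 1 / 225 + 1 / 7500)
    (Y3 : 1 / 225 ≤ (x n2).2) (Y4 : (x n2).2 ≤ 1 / 225 + 1 / 7500)
    (d1 : (x n1).1 - (x n2).1 < (451 / 500) / 39450)
    (d2 : (x n2).1 - (x n1).1 < (451 / 500) / 39450)
    (d3 : (x n1).2 - (x n2).2 < (451 / 500) / 39450)
    (d4 : (x n2).2 - (x n1).2 < (451 / 500) / 39450) : False := by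
  refine sepx h 39225 (by norm_num) (by norm_num) n1 n2 h1 h2 hne X1 X2 X3 X4 Y1 Y2 Y3 Y4
    ?_ ?_ ?_ ?_ <;> push_cast <;> norm_num <;> linarith

theorem upper (h : Good 40000 x) : False := by
  obtain ⟨nP, hP, p1, p2, p3, p4⟩ := fillk h (1 / 15 + 2 / 31200) (1 / 225 + 2 / 31200)
    (by norm_num) (by norm_num) (by norm_num) (by norm_num)
  obtain ⟨nA, hA, a1, a2, a3, a4⟩ := fillk h ((x nP).1 + (1 / 10) / 31200)
    ((x nP).2 - (45 / 100) / 31200) (by linarith) (by linarith) (by linarith) (by linarith)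
  have hAP : nA ≠ nP := by
    rintro rfl
    linarith
  -- `A` is far to the right of `P`
  have a5 : (x nP).1 + (451 / 500) / 31650 ≤ (x nA).1 := by
    by_contra hc
    push Not at hc
    exact sepk h nA nP hA hP hAP (by linarith) (by linarith) (by linarith) (by linarith)
      (by linarith) (by linarith) (by linarith) (by linarith) (by linarith) (by linarith)
      (by linarith) (by linarith)
  obtain ⟨nC, hC, c1, c2, c3, c4⟩ := fillk' h ((x nP).1 + (8 / 100) / 31200)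
    ((x nP).2 - (36 / 100) / 31200) (by linarith) (by linarith) (by linarith) (by linarith)
  have hP' : nP < 39225 ^ 2 := hP.trans (by norm_num)
  have hA' : nA < 39225 ^ 2 := hA.trans (by norm_num)
  have hCP : nC ≠ nP := by
    rintro rfl
    linarith
  have hCA : nC ≠ nA := by
    rintro rfl
    linarith
  have c5 : (x nP).1 + (451 / 500) / 39450 ≤ (x nC).1 := by
    by_contra hc
    push Not at hc
    exact sepk' h nC nP hC hP' hCP (by linarith) (by linarith) (by linarith) (by linarith)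
      (by linarith) (by linarith) (by linarith) (by linarith) (by linarith) (by linarith)
      (by linarith) (by linarith)
  have hAC : (x nC).2 + (451 / 500) / 39450 ≤ (x nA).2 ∨
      (x nA).2 + (451 / 500) / 39450 ≤ (x nC).2 := by
    by_contra hc
    push Not at hc
    exact sepk' h nC nA hC hA' hCA (by linarith) (by linarith) (by linarith) (by linarith)
      (by linarith) (by linarith) (by linarith) (by linarith) (by linarith) (by linarith)
      (by linarith) (by linarith)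
  rcases hAC with hAC | hAC
  · obtain ⟨nB, hB, b1, b2, b3, b4⟩ := fillk h ((x nP).1 + (1 / 10) / 31200)
      ((x nA).2 - 1 / 31200) (by linarith) (by linarith) (by linarith) (by linarith)
    have hB' : nB < 39225 ^ 2 := hB.trans (by norm_num)
    have hBP : nB ≠ nP := by
      rintro rfl
      linarith
    have hBA : nB ≠ nA := by
      rintro rfl
      linarith
    have b5 : (x nP).1 + (451 / 500) / 31650 ≤ (x nB).1 := by
      by_contra hc
      push Not at hc
      exact sepk h nB nP hB hP hBP (by linarith) (by linarith) (by linarith) (by linarith)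
        (by linarith) (by linarith) (by linarith) (by linarith) (by linarith) (by linarith)
        (by linarith) (by linarith)
    have b6 : (x nB).2 + (451 / 500) / 31650 ≤ (x nA).2 := by
      by_contra hc
      push Not at hc
      exact sepk h nB nA hB hA hBA (by linarith) (by linarith) (by linarith) (by linarith)
        (by linarith) (by linarith) (by linarith) (by linarith) (by linarith) (by linarith)
        (by linarith) (by linarith)
    have hBC : nB ≠ nC := by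
      rintro rfl
      linarith
    exact sepk' h nB nC hB' hC hBC (by linarith) (by linarith) (by linarith) (by linarith)
      (by linarith) (by linarith) (by linarith) (by linarith) (by linarith) (by linarith)
      (by linarith) (by linarith)
  · obtain ⟨nB, hB, b1, b2, b3, b4⟩ := fillk h ((x nP).1 + (1 / 10) / 31200)
      ((x nA).2 + (1 / 10) / 31200) (by linarith) (by linarith) (by linarith) (by linarith)
    have hB' : nB < 39225 ^ 2 := hB.trans (by norm_num)
    have hBP : nB ≠ nP := by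
      rintro rfl
      linarith
    have hBA : nB ≠ nA := by
      rintro rfl
      linarith
    have b5 : (x nP).1 + (451 / 500) / 31650 ≤ (x nB).1 := by
      by_contra hc
      push Not at hc
      exact sepk h nB nP hB hP hBP (by linarith) (by linarith) (by linarith) (by linarith)
        (by linarith) (by linarith) (by linarith) (by linarith) (by linarith) (by linarith)
        (by linarith) (by linarith)
    have b6 : (x nA).2 + (451 / 500) / 31650 ≤ (x nB).2 := by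
      by_contra hc
      push Not at hc
      exact sepk h nB nA hB hA hBA (by linarith) (by linarith) (by linarith) (by linarith)
        (by linarith) (by linarith) (by linarith) (by linarith) (by linarith) (by linarith)
        (by linarith) (by linarith)
    have hBC : nB ≠ nC := by
      rintro rfl
      linarith
    exact sepk' h nB nC hB' hC hBC (by linarith) (by linarith) (by linarith) (by linarith)
      (by linarith) (by linarith) (by linarith) (by linarith) (by linarith) (by linarith)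
      (by linarith) (by linarith)

lemma Good.mono {K K' : ℕ} {x : ℕ → ℝ × ℝ} (h : Good K x) (hK : K' ≤ K) : Good K' x :=
  ⟨fun n hn => h.1 n (lt_of_lt_of_le hn (Nat.pow_le_pow_left hK 2)),
    fun k hk hk' => h.2 k hk (hk'.trans hK)⟩

/-- **The largest `K` for which a `K`-good sequence exists is finite.**  A `17`-good sequence
exists; no `K`-good sequence exists for `K ≥ 40000`; in particular there is no infinite sequence
all of whose initial segments of length `K ^ 2` are `K`-good. -/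
theorem result :
    (∃ x : ℕ → ℝ × ℝ, Good 17 x) ∧
    (∀ K : ℕ, 40000 ≤ K → ¬ ∃ x : ℕ → ℝ × ℝ, Good K x) ∧
    ¬ ∃ x : ℕ → ℝ × ℝ, ∀ K : ℕ, Good K x :=
  ⟨⟨_, lower⟩, fun _ hK ⟨_, hx⟩ => upper (hx.mono hK), fun ⟨_, hx⟩ => upper (hx 40000)⟩

end Pool.Agent.Results.MP_924435_co.FiniteBound
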